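import Mathlib
import Pool.Agent.H522Z.BM.Defs
import Pool.Agent.H522Z.BM.Main

set_option autoImplicit false

namespace Pool.Agent.Results.MP_ef0505_an.ANotTubeNull

open Pool.Agent.H522Z.BM

/-- For all even `n > m ≥ 4` there is a nonempty proper subset `D` of the `m × n` grid whose
Bedford-McMullen carpet is not tube null (for tubes around segments of length at least `L`,
whatever the fixed `L > 0`). -/
theorem result (m n : ℕ) (hm : 4 ≤ m) (hmn : m < n) (hme : Even m) (hne : Even n) :
    ∃ D : Finset (ℕ × ℕ), D.Nonempty ∧ D ⊂ Finset.range m ×ˢ Finset.range n ∧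
      ∃ F : Set Plane, IsCarpet m n D F ∧ ∀ L : ℝ, 0 < L → ¬ TubeNull L F :=
  main hm hmn hme hne

end Pool.Agent.Results.MP_ef0505_an.ANotTubeNull
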